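import Mathlib
import Pool.Agent.TH119.UF.Main

/-!
# Ultraproducts of representations of varying groups over varying fields
-/

set_option autoImplicit false
set_option linter.unusedSectionVars false

namespace Pool.Agent.TH119.UX

open Matrix Polynomial Filter
open Pool.Agent.TH119.GO (SubQ TT TT_mul TT_apply Irr ent ent' ent_mem_AA exists_subQ)
open Pool.Agent.TH119.OP (sp mem_sp SS)
open Pool.Agent.TH119.FT (mkHom mkHom_apply tg tg_apply sz nu)
open Pool.Agent.TH119.PP (sp_top)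
open Pool.Agent.TH119.UF (subQ_iff irr_of_sp exists_mult)

variable {k : ℕ → Type} [∀ i, Field (k i)]

/-- The ideal of the ultrafilter. -/
def UI (U : Ultrafilter ℕ) : Ideal (∀ i, k i) where
  carrier := {c | ∀ᶠ i in (U : Filter ℕ), c i = 0}
  add_mem' := by
    intro a b ha hb
    filter_upwards [ha, hb] with i h1 h2
    rw [Pi.add_apply, h1, h2, add_zero]
  zero_mem' := Eventually.of_forall fun _ => rfl
  smul_mem' := by
    intro c a ha
    filter_upwards [ha] with i h1
    rw [smul_eq_mul, Pi.mul_apply, h1, mul_zero]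

theorem mem_UI (U : Ultrafilter ℕ) (c : ∀ i, k i) :
    c ∈ (UI U : Ideal (∀ i, k i)) ↔ ∀ᶠ i in (U : Filter ℕ), c i = 0 := Iff.rfl

theorem UI_max (U : Ultrafilter ℕ) : (UI U : Ideal (∀ i, k i)).IsMaximal := by
  classical
  rw [Ideal.isMaximal_iff]
  constructor
  · rw [mem_UI]
    intro h
    obtain ⟨i, hi⟩ := h.exists
    exact one_ne_zero hi
  · intro J x hJ hx hxJ
    rw [mem_UI, ← Ultrafilter.eventually_not] at hx
    have h1 : (1 - (fun i => (x i)⁻¹) * x : ∀ i, k i) ∈ (UI U : Ideal (∀ i, k i)) := by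
      rw [mem_UI]
      filter_upwards [hx] with i hi
      rw [Pi.sub_apply, Pi.mul_apply, Pi.one_apply, inv_mul_cancel₀ hi, sub_self]
    have h2 := J.add_mem (hJ h1) (J.mul_mem_left (fun i => (x i)⁻¹) hxJ)
    rwa [sub_add_cancel] at h2

variable {K : Type} [Field K] (U : Ultrafilter ℕ) (ev : (∀ i, k i) →+* K)

theorem ev_eq (hev : ∀ c, ev c = 0 ↔ ∀ᶠ i in (U : Filter ℕ), c i = 0) (a b : ∀ i, k i) :
    ev a = ev b ↔ ∀ᶠ i in (U : Filter ℕ), a i = b i := by
  rw [← sub_eq_zero, ← map_sub, hev]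
  refine eventually_congr (Eventually.of_forall fun i => ?_)
  rw [Pi.sub_apply, sub_eq_zero]

/-- The ultraproduct is algebraically closed. -/
theorem algClosed [∀ i, IsAlgClosed (k i)] (hs : Function.Surjective ev) : IsAlgClosed K := by
  refine IsAlgClosed.of_exists_root K fun p hp hirr => ?_
  choose c hc using fun j => hs (p.coeff j)
  set d := p.natDegree with hd
  have hd0 : 0 < d := hirr.natDegree_pos
  have hroot : ∀ i : ℕ, ∃ x : k i, x ^ d + ∑ j ∈ Finset.range d, c j i * x ^ j = 0 := by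
    intro i
    set r : (k i)[X] := ∑ j ∈ Finset.range d, C (c j i) * X ^ j with hr
    have hrd : r.degree < d := by
      rw [hr]
      refine lt_of_le_of_lt (Polynomial.degree_sum_le _ _) ?_
      rw [Finset.sup_lt_iff (by exact_mod_cast WithBot.bot_lt_coe d)]
      intro j hj
      refine lt_of_le_of_lt (Polynomial.degree_C_mul_X_pow_le _ _) ?_
      exact_mod_cast Finset.mem_range.1 hj
    have hdeg : (X ^ d + r : (k i)[X]).degree = (X ^ d : (k i)[X]).degree :=
      Polynomial.degree_add_eq_left_of_degree_lt (by rwa [Polynomial.degree_X_pow])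
    obtain ⟨x, hx⟩ := IsAlgClosed.exists_root (X ^ d + r) (by
      rw [hdeg, Polynomial.degree_X_pow]
      exact_mod_cast hd0.ne')
    refine ⟨x, ?_⟩
    rw [IsRoot.def, eval_add, eval_pow, eval_X, hr, eval_finsetSum] at hx
    simpa using hx
  choose x hx using hroot
  refine ⟨ev x, ?_⟩
  rw [hp.as_sum, eval_add, eval_pow, eval_X, eval_finsetSum, ← hd]
  simp only [eval_mul, eval_C, eval_pow, eval_X, ← hc, ← map_pow, ← map_mul, ← map_sum,
    ← map_add]
  have h1 : (x ^ d + ∑ j ∈ Finset.range d, c j * x ^ j : ∀ i, k i) = 0 := by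
    funext i
    rw [Pi.add_apply, Pi.pow_apply, Finset.sum_apply]
    exact hx i
  rw [h1, map_zero]

theorem charZeroK (hev : ∀ c, ev c = 0 ↔ ∀ᶠ i in (U : Filter ℕ), c i = 0)
    (hch : ∀ N : ℕ, N ≠ 0 → ∀ᶠ i in (U : Filter ℕ), (N : k i) ≠ 0) : CharZero K := by
  refine charZero_of_inj_zero fun N hN => ?_
  by_contra hne
  have h1 : ev (N : ∀ i, k i) = 0 := by rw [map_natCast, hN]
  obtain ⟨i, h2, h3⟩ := (((hev _).1 h1).and (hch N hne)).exists
  exact h3 h2

variable {G : ℕ → Type} [∀ i, Group (G i)] {n m : ℕ}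

/-- The matrix of sequences. -/
noncomputable def sq (ρ : ∀ i, G i →* GL (Fin n) (k i)) (g : ∀ i, G i) :
    Matrix (Fin n) (Fin n) (∀ i, k i) :=
  Matrix.of fun p q i => (ρ i (g i) : Matrix (Fin n) (Fin n) (k i)) p q

theorem sq_map (ρ : ∀ i, G i →* GL (Fin n) (k i)) (g : ∀ i, G i) (i : ℕ) :
    (sq ρ g).map (Pi.evalRingHom k i) = (ρ i (g i) : Matrix (Fin n) (Fin n) (k i)) := rfl

theorem sq_mul (ρ : ∀ i, G i →* GL (Fin n) (k i)) (g h : ∀ i, G i) :
    sq ρ (g * h) = sq ρ g * sq ρ h := by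
  ext p q i
  rw [Matrix.mul_apply, Finset.sum_apply]
  show (ρ i (g i * h i) : Matrix (Fin n) (Fin n) (k i)) p q = _
  rw [map_mul, Units.val_mul, Matrix.mul_apply]
  rfl

theorem sq_one (ρ : ∀ i, G i →* GL (Fin n) (k i)) : sq ρ 1 = 1 := by
  ext p q i
  show (ρ i 1 : Matrix (Fin n) (Fin n) (k i)) p q = _
  rw [map_one, Units.val_one, Matrix.one_apply, Matrix.one_apply]
  split_ifs <;> rfl

/-- The ultraproduct of representations. -/
noncomputable def gr (ρ : ∀ i, G i →* GL (Fin n) (k i)) : (∀ i, G i) →* GL (Fin n) K :=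
  mkHom (fun g => (sq ρ g).map ev)
    (by rw [sq_one, Matrix.map_one _ (map_zero ev) (map_one ev)])
    (fun g h => by rw [sq_mul, Matrix.map_mul])

theorem gr_apply (ρ : ∀ i, G i →* GL (Fin n) (k i)) (g : ∀ i, G i) (p q : Fin n) :
    (gr ev ρ g : Matrix (Fin n) (Fin n) K) p q =
      ev fun i => (ρ i (g i) : Matrix (Fin n) (Fin n) (k i)) p q := rfl

theorem gr_val (ρ : ∀ i, G i →* GL (Fin n) (k i)) (g : ∀ i, G i) :
    (gr ev ρ g : Matrix (Fin n) (Fin n) K) = (sq ρ g).map ev := rfl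

theorem TT_gr (W : ∀ i, G i →* GL (Fin m) (k i)) (a b : ℕ) (g : ∀ i, G i)
    (I J : (Fin a → Fin m) × (Fin b → Fin m)) :
    TT (gr ev W) a b g I J = ev fun i => TT (W i) a b (g i) I J := by
  have h1 : (fun i => TT (W i) a b (g i) I J) =
      (∏ s, fun i => (W i (g i) : Matrix (Fin m) (Fin m) (k i)) (I.1 s) (J.1 s)) *
        ∏ t, fun i => (W i (g i)⁻¹ : Matrix (Fin m) (Fin m) (k i)) (J.2 t) (I.2 t) := by
    funext i
    rw [Pi.mul_apply, Finset.prod_apply, Finset.prod_apply, TT_apply]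
    rfl
  rw [h1, map_mul, map_prod, map_prod]
  rfl

/-- Divisibility of the characteristic polynomials passes to the ultraproduct. -/
theorem dvd_gr (hev : ∀ c, ev c = 0 ↔ ∀ᶠ i in (U : Filter ℕ), c i = 0)
    (ρ : ∀ i, G i →* GL (Fin n) (k i)) (W : ∀ i, G i →* GL (Fin m) (k i)) (e : ℕ) (g : ∀ i, G i)
    (h : ∀ᶠ i in (U : Filter ℕ), (ρ i (g i) : Matrix (Fin n) (Fin n) (k i)).charpoly ∣
      (W i (g i) : Matrix (Fin m) (Fin m) (k i)).charpoly ^ e) :
    (gr ev ρ g : Matrix (Fin n) (Fin n) K).charpoly ∣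
      (gr ev W g : Matrix (Fin m) (Fin m) K).charpoly ^ e := by
  set rm := (sq W g).charpoly ^ e %ₘ (sq ρ g).charpoly with hrm
  have h1 : rm.map ev = (gr ev W g : Matrix (Fin m) (Fin m) K).charpoly ^ e %ₘ
      (gr ev ρ g : Matrix (Fin n) (Fin n) K).charpoly := by
    rw [hrm, Polynomial.map_modByMonic _ (Matrix.charpoly_monic _), Polynomial.map_pow,
      ← Matrix.charpoly_map, ← Matrix.charpoly_map, gr_val, gr_val]
  have h2 : ∀ i, rm.map (Pi.evalRingHom k i) =
      (W i (g i) : Matrix (Fin m) (Fin m) (k i)).charpoly ^ e %ₘ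
      (ρ i (g i) : Matrix (Fin n) (Fin n) (k i)).charpoly := by
    intro i
    rw [hrm, Polynomial.map_modByMonic _ (Matrix.charpoly_monic _), Polynomial.map_pow,
      ← Matrix.charpoly_map, ← Matrix.charpoly_map, sq_map, sq_map]
  rw [← modByMonic_eq_zero_iff_dvd (Matrix.charpoly_monic _), ← h1]
  ext j
  rw [coeff_map, coeff_zero, hev]
  refine h.mono fun i hi => ?_
  have h3 := (modByMonic_eq_zero_iff_dvd (Matrix.charpoly_monic _)).2 hi
  rw [← h2] at h3
  have h4 := congrArg (fun q => coeff q j) h3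
  simp only [coeff_map, coeff_zero] at h4
  exact h4

/-- The ultraproduct of irreducible representations spans the matrices. -/
theorem sp_gr (hev : ∀ c, ev c = 0 ↔ ∀ᶠ i in (U : Filter ℕ), c i = 0)
    (hs : Function.Surjective ev)
    (ρ : ∀ i, G i →* GL (Fin n) (k i)) (hsp : ∀ i, sp (ρ i) = ⊤) :
    sp (gr ev ρ) = ⊤ := by
  classical
  by_contra hcon
  obtain ⟨f, hf0, hf⟩ := Submodule.exists_le_ker_of_lt_top _ (lt_top_iff_ne_top.2 hcon)
  choose c hc using fun p : Fin n × Fin n => hs (f (Matrix.single p.1 p.2 1))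
  have hfM : ∀ M : Matrix (Fin n) (Fin n) K, f M = ∑ p, ∑ q, M p q * f (Matrix.single p q 1) := by
    intro M
    conv_lhs => rw [Matrix.matrix_eq_sum_single M]
    rw [map_sum]
    refine Finset.sum_congr rfl fun p _ => ?_
    rw [map_sum]
    refine Finset.sum_congr rfl fun q _ => ?_
    have h1 : Matrix.single p q (M p q) = M p q • Matrix.single p q (1 : K) := by
      rw [Matrix.smul_single, smul_eq_mul, mul_one]
    rw [h1, map_smul, smul_eq_mul]
  have hw : ∀ w : ∀ i, G i, ∀ᶠ i in (U : Filter ℕ),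
      ∑ p, ∑ q, (ρ i (w i) : Matrix (Fin n) (Fin n) (k i)) p q * c (p, q) i = 0 := by
    intro w
    have h1 : f (gr ev ρ w : Matrix (Fin n) (Fin n) K) = 0 := hf (mem_sp (gr ev ρ) w)
    rw [hfM] at h1
    have h2 : ev (fun i => ∑ p, ∑ q,
        (ρ i (w i) : Matrix (Fin n) (Fin n) (k i)) p q * c (p, q) i) = 0 := by
      rw [← h1]
      have h3 : (fun i => ∑ p, ∑ q,
          (ρ i (w i) : Matrix (Fin n) (Fin n) (k i)) p q * c (p, q) i) =
          ∑ p, ∑ q, (fun i => (ρ i (w i) : Matrix (Fin n) (Fin n) (k i)) p q) * c (p, q) := by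
        funext i
        rw [Finset.sum_apply]
        refine Finset.sum_congr rfl fun p _ => ?_
        rw [Finset.sum_apply]
        rfl
      rw [h3, map_sum]
      refine Finset.sum_congr rfl fun p _ => ?_
      rw [map_sum]
      refine Finset.sum_congr rfl fun q _ => ?_
      rw [map_mul, hc]
      rfl
    exact (hev _).1 h2
  have hex : ∀ i, ∃ g : G i, (∃ p, c p i ≠ 0) →
      ∑ p, ∑ q, (ρ i g : Matrix (Fin n) (Fin n) (k i)) p q * c (p, q) i ≠ 0 := by
    intro i
    by_contra hno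
    push Not at hno
    obtain ⟨p, hp⟩ := (hno 1).1
    let L : Matrix (Fin n) (Fin n) (k i) →ₗ[k i] k i :=
      { toFun := fun M => ∑ p, ∑ q, M p q * c (p, q) i
        map_add' := fun a b => by
          simp only [Matrix.add_apply, add_mul, Finset.sum_add_distrib]
        map_smul' := fun t a => by
          simp only [Matrix.smul_apply, smul_eq_mul, mul_assoc, ← Finset.mul_sum,
            RingHom.id_apply] }
    have h2 : sp (ρ i) ≤ LinearMap.ker L := by
      unfold sp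
      rw [Submodule.span_le]
      rintro _ ⟨w, rfl⟩
      exact (hno w).2
    rw [hsp i] at h2
    have h3 : L (Matrix.single p.1 p.2 1) = 0 := h2 (Submodule.mem_top)
    have h4 : L (Matrix.single p.1 p.2 1) = c p i := by
      show ∑ a, ∑ b, (Matrix.single p.1 p.2 (1 : k i)) a b * c (a, b) i = c p i
      rw [Finset.sum_eq_single p.1, Finset.sum_eq_single p.2, Matrix.single_apply_same, one_mul]
      · intro b _ hb
        rw [Matrix.single_apply_of_col_ne _ _ hb.symm, zero_mul]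
      · intro h; exact absurd (Finset.mem_univ _) h
      · intro a _ ha
        refine Finset.sum_eq_zero fun b _ => ?_
        rw [Matrix.single_apply_of_row_ne ha.symm, zero_mul]
      · intro h; exact absurd (Finset.mem_univ _) h
    exact hp (by rw [← h4, h3])
  choose w hw' using hex
  have hc0 : ∀ᶠ i in (U : Filter ℕ), ∀ p, c p i = 0 := by
    refine (hw w).mono fun i hi => ?_
    by_contra hne
    push Not at hne
    exact hw' i hne hi
  apply hf0
  refine LinearMap.ext fun M => ?_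
  rw [hfM, LinearMap.zero_apply]
  refine Finset.sum_eq_zero fun p _ => Finset.sum_eq_zero fun q _ => ?_
  rw [← hc (p, q), (hev _).2 (hc0.mono fun i hi => hi (p, q)), mul_zero]

/-- **Descent of subquotients.** -/
theorem descend (hev : ∀ c, ev c = 0 ↔ ∀ᶠ i in (U : Filter ℕ), c i = 0)
    (hs : Function.Surjective ev)
    (ρ : ∀ i, G i →* GL (Fin n) (k i)) (W : ∀ i, G i →* GL (Fin m) (k i))
    (a b : ℕ) (h : SubQ (gr ev ρ) (TT (gr ev W) a b)) :
    ∀ᶠ i in (U : Filter ℕ), SubQ (ρ i) (TT (W i) a b) := by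
  classical
  obtain ⟨P, S, hPS⟩ := (subQ_iff (TT_mul (gr ev W) a b)).1 h
  choose Pl hPl using fun x : Fin n × ((Fin a → Fin m) × (Fin b → Fin m)) => hs (P x.1 x.2)
  choose Sl hSl using fun x : ((Fin a → Fin m) × (Fin b → Fin m)) × Fin n => hs (S x.1 x.2)
  let Pm : Matrix (Fin n) ((Fin a → Fin m) × (Fin b → Fin m)) (∀ i, k i) :=
    Matrix.of fun p I => Pl (p, I)
  let Sm : Matrix ((Fin a → Fin m) × (Fin b → Fin m)) (Fin n) (∀ i, k i) :=
    Matrix.of fun I p => Sl (I, p)
  let Tm : (∀ i, G i) → Matrix ((Fin a → Fin m) × (Fin b → Fin m))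
      ((Fin a → Fin m) × (Fin b → Fin m)) (∀ i, k i) :=
    fun g => Matrix.of fun I J i => TT (W i) a b (g i) I J
  have hPm : Pm.map ev = P := by
    ext p I
    exact hPl (p, I)
  have hSm : Sm.map ev = S := by
    ext I p
    exact hSl (I, p)
  have hTm : ∀ g, (Tm g).map ev = TT (gr ev W) a b g := by
    intro g
    ext I J
    exact (TT_gr ev W a b g I J).symm
  have hw : ∀ g : ∀ i, G i, ∀ᶠ i in (U : Filter ℕ),
      (ρ i (g i) : Matrix (Fin n) (Fin n) (k i)) =
      Pm.map (Pi.evalRingHom k i) * TT (W i) a b (g i) *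
        Sm.map (Pi.evalRingHom k i) := by
    intro g
    have h1 : (sq ρ g).map ev = (Pm * Tm g * Sm).map ev := by
      rw [Matrix.map_mul, Matrix.map_mul, hPm, hSm, hTm, ← gr_val, hPS g]
    have h2 : ∀ p q, ∀ᶠ i in (U : Filter ℕ), sq ρ g p q i = (Pm * Tm g * Sm) p q i := by
      intro p q
      refine (ev_eq U ev hev _ _).1 ?_
      exact congrFun (congrFun h1 p) q
    have h3 : ∀ᶠ i in (U : Filter ℕ), ∀ p q, sq ρ g p q i = (Pm * Tm g * Sm) p q i :=
      eventually_all.2 fun p => eventually_all.2 fun q => h2 p q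
    refine h3.mono fun i hi => ?_
    have h4 : (Pm * Tm g * Sm).map (Pi.evalRingHom k i) =
        Pm.map (Pi.evalRingHom k i) * TT (W i) a b (g i) *
        Sm.map (Pi.evalRingHom k i) := by
      rw [Matrix.map_mul, Matrix.map_mul]
      rfl
    rw [← h4]
    ext p q
    exact hi p q
  have hex : ∀ i, ∃ g : G i, ¬ SubQ (ρ i) (TT (W i) a b) →
      (ρ i g : Matrix (Fin n) (Fin n) (k i)) ≠
      Pm.map (Pi.evalRingHom k i) * TT (W i) a b g * Sm.map (Pi.evalRingHom k i) := by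
    intro i
    by_contra hno
    push Not at hno
    exact (hno 1).1 ((subQ_iff (TT_mul (W i) a b)).2 ⟨_, _, fun g => (hno g).2⟩)
  choose w hw' using hex
  refine (hw w).mono fun i hi => ?_
  by_contra hne
  exact hw' i hne hi

/-- **Compactness.** -/
theorem compact [∀ i, IsAlgClosed (k i)] (hn : 0 < n) (e : ℕ)
    (hev : ∀ c, ev c = 0 ↔ ∀ᶠ i in (U : Filter ℕ), c i = 0)
    (hs : Function.Surjective ev)
    (hch : ∀ N : ℕ, N ≠ 0 → ∀ᶠ i in (U : Filter ℕ), (N : k i) ≠ 0)
    (ρ : ∀ i, G i →* GL (Fin n) (k i)) (W : ∀ i, G i →* GL (Fin m) (k i))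
    (hirr : ∀ i, Irr (ρ i))
    (hdvd : ∀ i g, (ρ i g : Matrix (Fin n) (Fin n) (k i)).charpoly ∣
      (W i g : Matrix (Fin m) (Fin m) (k i)).charpoly ^ e) :
    ∃ a b, ∀ᶠ i in (U : Filter ℕ), SubQ (ρ i) (TT (W i) a b) := by
  have : IsAlgClosed K := algClosed ev hs
  have : CharZero K := charZeroK U ev hev hch
  have h1 : Irr (gr ev ρ) := irr_of_sp (sp_gr U ev hev hs ρ fun i => sp_top hn (ρ i) (hirr i))
  obtain ⟨M, W', h2, h3⟩ := exists_mult (gr ev W) e
  obtain ⟨a, b, hab⟩ := exists_subQ hn (gr ev W) h1 fun i j => h3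
    (ent_mem_AA h1.ss (fun g => by
      rw [h2]
      exact dvd_gr U ev hev ρ W e g (Eventually.of_forall fun i => hdvd i (g i))) i j)
  exact ⟨a, b, descend U ev hev hs ρ W a b hab⟩

/-- **Uniform exponents in large characteristic.** -/
theorem uniform (n m e : ℕ) (hn : 0 < n) : ∃ B : ℕ,
    ∀ (F : Type) [Field F] [IsAlgClosed F] (_ : ∀ N : ℕ, N ≠ 0 → N ≤ B → (N : F) ≠ 0)
      (H : Type) [Group H] (ρ : H →* GL (Fin n) F) (W : H →* GL (Fin m) F), Irr ρ →
      (∀ g, (ρ g : Matrix (Fin n) (Fin n) F).charpoly ∣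
        (W g : Matrix (Fin m) (Fin m) F).charpoly ^ e) →
      ∃ a b, a ≤ B ∧ b ≤ B ∧ SubQ ρ (TT W a b) := by
  classical
  by_contra hcon
  push Not at hcon
  choose F i1 i2 hchar H i3 ρ W hirr hdvd hnot using hcon
  have hmax : (UI (hyperfilter ℕ) : Ideal (∀ i, F i)).IsMaximal := UI_max _
  let _ : Field ((∀ i, F i) ⧸ (UI (hyperfilter ℕ) : Ideal (∀ i, F i))) :=
    Ideal.Quotient.field _
  let ev : (∀ i, F i) →+* ((∀ i, F i) ⧸ (UI (hyperfilter ℕ) : Ideal (∀ i, F i))) :=
    Ideal.Quotient.mk _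
  have hev : ∀ c, ev c = 0 ↔ ∀ᶠ i in (hyperfilter ℕ : Filter ℕ), c i = 0 := fun c =>
    Ideal.Quotient.eq_zero_iff_mem
  have hs : Function.Surjective ev := Ideal.Quotient.mk_surjective
  have hat : ∀ N : ℕ, ∀ᶠ i in (hyperfilter ℕ : Filter ℕ), N ≤ i := fun N =>
    Nat.hyperfilter_le_atTop (eventually_ge_atTop N)
  obtain ⟨a, b, hab⟩ := compact (hyperfilter ℕ) ev hn e hev hs
    (fun N hN => (hat N).mono fun i hi => hchar i N hN hi) ρ W hirr hdvd
  obtain ⟨i, h1, h2, h3⟩ := (hab.and ((hat a).and (hat b))).exists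
  exact hnot i a b h2 h3 h1

end Pool.Agent.TH119.UX
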