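import Mathlib
import Pool.Agent.TH119.UX.Ultra
import Pool.Agent.TH119.GO.Gal

/-!
# Occurrence at all primes
-/

set_option autoImplicit false
set_option linter.unusedSectionVars false

namespace Pool.Agent.TH119.UX

open NumberField IsDedekindDomain Polynomial Matrix Topology Filter
open Pool.Agent.W401.Cheb (GK IsFrob)
open Pool.Agent.TH119.GO (SubQ TT Irr Thin eq_of_frob)

/-- Inclusion of the eigenvalues in terms of divisibility. -/
theorem dvd_of_roots {k : Type} [Field k] {n : ℕ} (p q : k[X]) (hp : p.Monic)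
    (hn : p.natDegree = n)
    (h : ∀ x : AlgebraicClosure k, aeval x p = 0 → aeval x q = 0) : p ∣ q ^ n := by
  classical
  rw [← Polynomial.map_dvd_map' (algebraMap k (AlgebraicClosure k)), Polynomial.map_pow]
  have hs : (p.map (algebraMap k (AlgebraicClosure k))).Splits := IsAlgClosed.splits _
  have hm := hp.map (algebraMap k (AlgebraicClosure k))
  have hcard : Multiset.card (p.map (algebraMap k (AlgebraicClosure k))).roots = n := by
    rw [← hn, ← Polynomial.natDegree_map (algebraMap k (AlgebraicClosure k))]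
    exact hs.natDegree_eq_card_roots.symm
  have h1 := hs.eq_prod_roots_of_monic hm
  have h2 : (Multiset.map (fun a => X - C a)
      (p.map (algebraMap k (AlgebraicClosure k))).roots).prod ∣
      (Multiset.map (fun _ => q.map (algebraMap k (AlgebraicClosure k)))
        (p.map (algebraMap k (AlgebraicClosure k))).roots).prod := by
    refine Multiset.prod_dvd_prod_of_dvd _ _ fun a ha => ?_
    rw [dvd_iff_isRoot, IsRoot.def, eval_map_algebraMap]
    apply h
    have h3 := (mem_roots'.1 ha).2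
    rwa [IsRoot.def, eval_map_algebraMap] at h3
  rw [Multiset.map_const', Multiset.prod_replicate, hcard] at h2
  rwa [h1]

/-- The monic polynomial of degree `n` with the lower coefficients of `p`. -/
noncomputable def mo {R : Type} [CommRing R] (n : ℕ) (p : R[X]) : R[X] :=
  X ^ n + ∑ j ∈ Finset.range n, C (p.coeff j) * X ^ j

theorem mo_monic {R : Type} [CommRing R] [Nontrivial R] (n : ℕ) (p : R[X]) : (mo n p).Monic := by
  unfold mo
  refine monic_X_pow_add ?_
  refine lt_of_le_of_lt (Polynomial.degree_sum_le _ _) ?_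
  rw [Finset.sup_lt_iff (by exact_mod_cast WithBot.bot_lt_coe n)]
  intro j hj
  refine lt_of_le_of_lt (Polynomial.degree_C_mul_X_pow_le _ _) ?_
  exact_mod_cast Finset.mem_range.1 hj

theorem mo_map {R : Type} [CommRing R] {k : Type} [Field k] (φ : R →+* k) {n : ℕ} (p : R[X])
    (A : Matrix (Fin n) (Fin n) k) (h : A.charpoly = p.map φ) :
    A.charpoly = (mo n p).map φ := by
  have h1 := A.charpoly_monic.as_sum
  have h2 : A.charpoly.natDegree = n := by
    rw [Matrix.charpoly_natDegree_eq_dim, Fintype.card_fin]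
  rw [h2] at h1
  rw [h1, mo, Polynomial.map_add, Polynomial.map_pow, Polynomial.map_X, Polynomial.map_sum]
  congr 1
  refine Finset.sum_congr rfl fun j _ => ?_
  rw [Polynomial.map_mul, Polynomial.map_pow, Polynomial.map_X, Polynomial.map_C, h, coeff_map]

variable {K : Type} [Field K] [NumberField K]

theorem thin_of_finite (F : Set (HeightOneSpectrum (𝓞 K))) (hF : F.Finite) : Thin F := by
  classical
  intro ε hε
  refine ⟨hF.toFinset.card, fun N T hT => ?_⟩
  have h1 : (T.card : ℝ) ≤ hF.toFinset.card := by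
    exact_mod_cast Finset.card_le_card fun v hv => hF.mem_toFinset.2 (hT v hv).2
  have h2 : (0 : ℝ) ≤ ε * Nat.primeCounting N := by positivity
  linarith

section cont

variable {n m : ℕ} {k : Type} [Field k] [TopologicalSpace k] [IsTopologicalRing k] [T2Space k]

/-- A continuous representation as a matrix over the ring of continuous functions. -/
noncomputable def cmat {n : ℕ} (ρ : GK K →* GL (Fin n) k)
    (hρ : Continuous fun g => (ρ g : Matrix (Fin n) (Fin n) k)) :
    Matrix (Fin n) (Fin n) C(GK K, k) :=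
  Matrix.of fun i j => ⟨fun g => ρ g i j, hρ.matrix_elem i j⟩

/-- Evaluation of continuous functions. -/
noncomputable def cev (g : GK K) : C(GK K, k) →+* k where
  toFun f := f g
  map_one' := rfl
  map_mul' _ _ := rfl
  map_zero' := rfl
  map_add' _ _ := rfl

theorem cmat_charpoly {n : ℕ} (ρ : GK K →* GL (Fin n) k)
    (hρ : Continuous fun g => (ρ g : Matrix (Fin n) (Fin n) k)) (g : GK K) :
    (cmat ρ hρ).charpoly.map (cev g) = (ρ g : Matrix (Fin n) (Fin n) k).charpoly := by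
  rw [← Matrix.charpoly_map]
  rfl

/-- Divisibility at the Frobenius elements outside a thin set gives divisibility everywhere. -/
theorem dvd_pow_of_frob (e : ℕ) (ρ : GK K →* GL (Fin n) k)
    (hρ : Continuous fun g => (ρ g : Matrix (Fin n) (Fin n) k)) (W : GK K →* GL (Fin m) k)
    (hW : Continuous fun g => (W g : Matrix (Fin m) (Fin m) k))
    (T : Set (HeightOneSpectrum (𝓞 K))) (hT : Thin T)
    (h : ∀ v ∉ T, ∀ τ, IsFrob v τ → (ρ τ : Matrix (Fin n) (Fin n) k).charpoly ∣
      (W τ : Matrix (Fin m) (Fin m) k).charpoly ^ e) (g : GK K) :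
    (ρ g : Matrix (Fin n) (Fin n) k).charpoly ∣
      (W g : Matrix (Fin m) (Fin m) k).charpoly ^ e := by
  set r := (cmat W hW).charpoly ^ e %ₘ (cmat ρ hρ).charpoly with hr
  have hrg : ∀ g, r.map (cev g) = (W g : Matrix (Fin m) (Fin m) k).charpoly ^ e %ₘ
      (ρ g : Matrix (Fin n) (Fin n) k).charpoly := by
    intro g
    rw [hr, Polynomial.map_modByMonic _ (Matrix.charpoly_monic _), Polynomial.map_pow,
      cmat_charpoly, cmat_charpoly]
  rw [← modByMonic_eq_zero_iff_dvd (Matrix.charpoly_monic _), ← hrg]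
  ext i
  rw [coeff_map, coeff_zero]
  refine eq_of_frob (fun g => r.coeff i g) (r.coeff i).continuous T hT ?_ g
  intro v hv τ hτ
  have h1 := (modByMonic_eq_zero_iff_dvd (Matrix.charpoly_monic _)).2 (h v hv τ hτ)
  rw [← hrg] at h1
  have h2 := congrArg (fun q => coeff q i) h1
  simp only [coeff_map, coeff_zero] at h2
  exact h2

end cont

variable {E : Type} [Field E] [NumberField E]

/-- Divisibility of the polynomials over the ring of integers, from a dense set of points. -/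
theorem poly_dvd {n m : ℕ} (P Q : HeightOneSpectrum (𝓞 K) → (𝓞 E)[X])
    (S : Set (HeightOneSpectrum (𝓞 K)))
    (h : ∀ a : 𝓞 E, a ≠ 0 → ∃ (k₁ : Type) (_ : Field k₁) (φ₁ : 𝓞 E →+* k₁)
      (ρ₁ : GK K →* GL (Fin n) k₁) (W₁ : GK K →* GL (Fin m) k₁), φ₁ a ≠ 0 ∧
      (∀ v ∉ S, ((Ideal.absNorm v.asIdeal : ℕ) : k₁) ≠ 0 → ∀ σ, IsFrob v σ →
        (ρ₁ σ : Matrix (Fin n) (Fin n) k₁).charpoly = (P v).map φ₁) ∧
      (∀ v ∉ S, ((Ideal.absNorm v.asIdeal : ℕ) : k₁) ≠ 0 → ∀ σ, IsFrob v σ →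
        (W₁ σ : Matrix (Fin m) (Fin m) k₁).charpoly = (Q v).map φ₁) ∧
      ∀ g, (ρ₁ g : Matrix (Fin n) (Fin n) k₁).charpoly ∣
        (W₁ g : Matrix (Fin m) (Fin m) k₁).charpoly ^ n)
    (v : HeightOneSpectrum (𝓞 K)) (hv : v ∉ S) : mo n (P v) ∣ Q v ^ n := by
  rw [← modByMonic_eq_zero_iff_dvd (mo_monic n (P v))]
  refine Polynomial.ext fun j => ?_
  rw [coeff_zero]
  by_contra hne
  set c := (Q v ^ n %ₘ mo n (P v)).coeff j with hc
  have hN : ((Ideal.absNorm v.asIdeal : ℕ) : 𝓞 E) ≠ 0 := by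
    rw [Nat.cast_ne_zero]
    exact Ideal.absNorm_eq_zero_iff.not.2 v.ne_bot
  obtain ⟨k₁, _, φ₁, ρ₁, W₁, h1, h2, h3, h4⟩ := h _ (mul_ne_zero hN hne)
  rw [map_mul, map_natCast] at h1
  obtain ⟨h5, h6⟩ := ne_zero_and_ne_zero_of_mul h1
  obtain ⟨τ, hτ⟩ := (Pool.Agent.W401.Frob.main K).1 v
  have h7 := mo_map φ₁ (P v) _ (h2 v hv h5 τ hτ)
  have h8 := h3 v hv h5 τ hτ
  have h9 := h4 τ
  rw [h7, h8] at h9
  have h10 := (modByMonic_eq_zero_iff_dvd ((mo_monic n (P v)).map φ₁)).2 h9
  rw [← Polynomial.map_pow, ← Polynomial.map_modByMonic _ (mo_monic n (P v))] at h10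
  have h11 := congrArg (fun q => coeff q j) h10
  simp only [coeff_map, coeff_zero] at h11
  exact h6 h11

/-- **The main theorem.** -/
theorem main (n m : ℕ) (hn : 0 < n) : ∃ B : ℕ,
    ∀ (K : Type) [Field K] [NumberField K] (E : Type) [Field E] [NumberField E]
      (P Q : HeightOneSpectrum (𝓞 K) → (𝓞 E)[X]) (S : Set (HeightOneSpectrum (𝓞 K))),
      Thin S → (∀ v ∉ S, mo n (P v) ∣ Q v ^ n) →
      ∀ (k : Type) [Field k] [IsAlgClosed k] [TopologicalSpace k] [IsTopologicalRing k]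
        [T2Space k], (∀ N : ℕ, N ≠ 0 → N ≤ B → (N : k) ≠ 0) →
      ∀ (φ : 𝓞 E →+* k) (ρ : GK K →* GL (Fin n) k) (W : GK K →* GL (Fin m) k),
        (Continuous fun g => (ρ g : Matrix (Fin n) (Fin n) k)) →
        (Continuous fun g => (W g : Matrix (Fin m) (Fin m) k)) → Irr ρ →
        (∀ v ∉ S, ((Ideal.absNorm v.asIdeal : ℕ) : k) ≠ 0 → ∀ σ, IsFrob v σ →
          (ρ σ : Matrix (Fin n) (Fin n) k).charpoly = (P v).map φ) →
        (∀ v ∉ S, ((Ideal.absNorm v.asIdeal : ℕ) : k) ≠ 0 → ∀ σ, IsFrob v σ →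
          (W σ : Matrix (Fin m) (Fin m) k).charpoly = (Q v).map φ) →
        ∃ a b, a ≤ B ∧ b ≤ B ∧ SubQ ρ (TT W a b) := by
  obtain ⟨B, hB⟩ := uniform n m n hn
  refine ⟨B, fun K _ _ E _ _ P Q S hS hdvd k _ _ _ _ _ hch φ ρ W hρc hWc hirr hρ hW => ?_⟩
  refine hB k hch (GK K) ρ W hirr ?_
  refine dvd_pow_of_frob n ρ hρc W hWc
    (S ∪ {v : HeightOneSpectrum (𝓞 K) | ((Ideal.absNorm v.asIdeal : ℕ) : k) = 0})
    (hS.union (thin_of_finite _ (Pool.Agent.TH119.DS.finite_char k))) ?_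
  intro v hv τ hτ
  have h1 : v ∉ S := fun h => hv (Or.inl h)
  have h2 : ((Ideal.absNorm v.asIdeal : ℕ) : k) ≠ 0 := fun h => hv (Or.inr h)
  rw [mo_map φ (P v) _ (hρ v h1 h2 τ hτ), hW v h1 h2 τ hτ, ← Polynomial.map_pow]
  exact Polynomial.map_dvd φ (hdvd v h1)

end Pool.Agent.TH119.UX
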